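import Pool.Agent.helper88.RL.SpecW
import Pool.Agent.helper23.RF.WRO
import Pool.Agent.helper88.RF.WPC
set_option autoImplicit false
namespace Pool.Agent.RL
open Finset Pool.Agent.helper3.FT Pool.Agent.T6 Pool.Agent.RF

theorem VMU_nu (p : ℕ) (hp : p.Prime) : ¬ IsUnit (p : OO) := by
  intro hu
  rw [QuadraticAlgebra.isUnit_iff_norm_isUnit, QuadraticAlgebra.norm_natCast, Int.isUnit_iff_natAbs_eq,
    Int.natAbs_pow, Int.natAbs_natCast] at hu
  have := hp.two_le
  nlinarith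

theorem VMU_cop {Q : ℕ} {k : OO} (hk : KG Q k) (p : ℕ) (hp : p.Prime) : ¬ (p : OO) ∣ k := by
  intro hd
  obtain ⟨t, ht⟩ := hd
  have hs : star k = (p : OO) * star t := by
    rw [ht, star_mul, star_natCast, mul_comm]
  exact VMU_nu p hp (hk.co.isUnit_of_dvd' ⟨t, ht⟩ ⟨star t, hs⟩)

theorem VMU_prim {Q : ℕ} {k : OO} (hk : KG Q k) : IsCoprime k.re k.im := by
  rw [Int.isCoprime_iff_gcd_eq_one]
  by_contra h1
  obtain ⟨p, hp, hpd⟩ := Nat.exists_prime_and_dvd h1
  refine VMU_cop hk p hp ((WPC_dvd_iff_nat p k).2 ⟨?_, ?_⟩)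
  · exact (Int.natCast_dvd_natCast.mpr hpd).trans (Int.gcd_dvd_left _ _)
  · exact (Int.natCast_dvd_natCast.mpr hpd).trans (Int.gcd_dvd_right _ _)

/-- parallel moduli are associated -/
theorem VMU_par {Q : ℕ} {k k₁ : OO} (hk : KG Q k) (h : dt k k₁ = 0) : k ∣ k₁ := by
  unfold dt at h
  have hc : IsCoprime k.re k.im := VMU_prim hk
  have e : k.im * k₁.re = k.re * k₁.im := by linarith
  obtain ⟨t, ht⟩ : k.re ∣ k₁.re := by
    refine hc.dvd_of_dvd_mul_left (z := k₁.re) ⟨k₁.im, e⟩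
  obtain ⟨t', ht'⟩ : k.im ∣ k₁.im := by
    refine hc.symm.dvd_of_dvd_mul_left (z := k₁.im) ⟨k₁.re, e.symm⟩
  by_cases h0 : k.im = 0
  · rw [h0, zero_mul] at ht'
    refine ⟨(t : OO), ?_⟩
    ext
    · simp [QuadraticAlgebra.re_mul, QuadraticAlgebra.re_intCast, QuadraticAlgebra.im_intCast, ht]
    · simp [QuadraticAlgebra.im_mul, QuadraticAlgebra.re_intCast, QuadraticAlgebra.im_intCast, ht', h0]
  · by_cases h1 : k.re = 0
    · rw [h1, zero_mul] at ht
      refine ⟨(t' : OO), ?_⟩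
      ext
      · simp [QuadraticAlgebra.re_mul, QuadraticAlgebra.re_intCast, QuadraticAlgebra.im_intCast, ht, h1]
      · simp [QuadraticAlgebra.im_mul, QuadraticAlgebra.re_intCast, QuadraticAlgebra.im_intCast, ht']
    · have : t = t' := by
        rw [ht, ht'] at e
        have e2 : (k.re * k.im) * t = (k.re * k.im) * t' := by linear_combination e
        exact mul_left_cancel₀ (mul_ne_zero h1 h0) e2
      refine ⟨(t : OO), ?_⟩
      ext
      · simp [QuadraticAlgebra.re_mul, QuadraticAlgebra.re_intCast, QuadraticAlgebra.im_intCast, ht]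
      · simp [QuadraticAlgebra.im_mul, QuadraticAlgebra.re_intCast, QuadraticAlgebra.im_intCast, ht', this]

theorem VMU_sym (k k₁ : OO) : dt k₁ k = - dt k k₁ := by
  unfold dt; ring

theorem VMU_norm (k : OO) : k.norm = k.re ^ 2 + k.re * k.im - k.im ^ 2 := by
  rw [QuadraticAlgebra.norm_def]
  ring

/-- at most three classes for every prime -/
theorem VMU_cls (p : ℕ) (hp : p.Prime) (S : Finset OO) (hS : ∀ k ∈ S, ¬ (p : OO) ∣ k ∧ (p : ℤ) ∣ k.norm * k.im) :
    (S.image (clp p)).card ≤ 3 := by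
  haveI : Fact p.Prime := ⟨hp⟩
  refine WRO_form (0 : ZMod p) 1 1 (-1) (fun h => one_ne_zero h.2.1) S ?_
  intro k hk
  refine ⟨(hS k hk).1, ?_⟩
  have h1 := (ZMod.intCast_zmod_eq_zero_iff_dvd _ p).2 (hS k hk).2
  rw [VMU_norm] at h1
  push_cast at h1
  linear_combination h1

theorem VMU (hVWF : VWF_stmt) (h1 : WRO_stmt) : VMU_stmt := by
  classical
  intro Q y δ r S hQ hy hy5 hδ hcop hS hinj
  have hy0 : y ≠ 0 := hy.ne_zero
  have hy1 : 1 ≤ y := Nat.one_le_iff_ne_zero.2 hy0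
  let f : OO → ((q : {q // q ∈ y.primeFactors}) → Option (ZMod (q : ℕ))) := fun k q => clp (q : ℕ) k
  have himg : S.image f ⊆ Fintype.piFinset (fun q : {q // q ∈ y.primeFactors} => S.image (clp (q : ℕ))) := by
    intro b hb
    obtain ⟨k, hk, rfl⟩ := mem_image.mp hb
    rw [Fintype.mem_piFinset]
    intro q
    exact mem_image.mpr ⟨k, hk, rfl⟩
  have hcardimg : (S.image f).card ≤ 3 ^ y.primeFactors.card := by
    refine (card_le_card himg).trans ?_
    rw [Fintype.card_piFinset]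
    calc ∏ q : {q // q ∈ y.primeFactors}, (S.image (clp (q : ℕ))).card
        ≤ ∏ q : {q // q ∈ y.primeFactors}, 3 := by
          refine prod_le_prod' (fun q _ => ?_)
          have hq := Nat.prime_of_mem_primeFactors q.2
          have hqy := Nat.dvd_of_mem_primeFactors q.2
          refine VMU_cls q hq S ?_
          intro k hk
          refine ⟨VMU_cop (hS k hk).1 q hq, ?_⟩
          exact dvd_trans (Int.natCast_dvd_natCast.2 hqy) (hS k hk).2.1
      _ = 3 ^ y.primeFactors.card := by simp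
  have hnn : (0 : ℝ) ≤ 1 + 15 * Q / (δ * y) := by positivity
  have hfib : ∀ b ∈ S.image f, (((S.filter (fun k => f k = b)).card : ℕ) : ℝ) ≤ 1 + 15 * Q / (δ * y) := by
    intro b _
    have hD : 1 ≤ δ * y := Nat.one_le_iff_ne_zero.2 (Nat.mul_ne_zero (by omega) hy0)
    have key := hVWF Q (δ * y) (S.filter (fun k => f k = b)) hQ hD (fun k hk => (hS k (mem_filter.mp hk).1).1) ?_
    · rw [Nat.cast_mul] at key
      exact key
    intro k hk k₁ hk₁ hne
    obtain ⟨hkS, hkf⟩ := mem_filter.mp hk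
    obtain ⟨hkS₁, hkf₁⟩ := mem_filter.mp hk₁
    have hff : f k = f k₁ := hkf.trans hkf₁.symm
    have hd0 : dt k k₁ ≠ 0 := by
      intro h0
      refine hne (hinj k hkS k₁ hkS₁ (VMU_par (hS k hkS).1 h0) (VMU_par (hS k₁ hkS₁).1 ?_))
      rw [VMU_sym, h0, neg_zero]
    have hyd : y ∣ (dt k k₁).natAbs := by
      rw [← Nat.prod_primeFactors_of_squarefree hy]
      refine Finset.prod_primes_dvd _ (fun p hp => (Nat.prime_of_mem_primeFactors hp).prime) ?_
      intro p hp
      have hpp := Nat.prime_of_mem_primeFactors hp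
      have hpy := Nat.dvd_of_mem_primeFactors hp
      have e1 : clp p k = clp p k₁ := congrFun hff ⟨p, hp⟩
      have hp5 : p ≠ 5 := fun h => hy5 (h ▸ hpy)
      exact Int.natCast_dvd.1 ((h1 p hpp hp5).2 k k₁ (VMU_cop (hS k hkS).1 p hpp) (VMU_cop (hS k₁ hkS₁).1 p hpp) e1)
    have hδd : δ ∣ (dt k k₁).natAbs := by
      refine Int.natCast_dvd.1 ?_
      obtain ⟨u, hu⟩ := (hS k hkS).2.2
      obtain ⟨v, hv⟩ := (hS k₁ hkS₁).2.2
      refine ⟨k₁.im * u - k.im * v, ?_⟩
      unfold dt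
      linear_combination k₁.im * hu - k.im * hv
    have hdd : δ * y ∣ (dt k k₁).natAbs := Nat.Coprime.mul_dvd_of_dvd_of_dvd hcop hδd hyd
    have hle := Nat.le_of_dvd (Int.natAbs_pos.2 hd0) hdd
    rw [Int.abs_eq_natAbs]
    exact_mod_cast hle
  have hsum := card_eq_sum_card_image f S
  have hcs : (S.card : ℝ) = ∑ b ∈ S.image f, (((S.filter (fun k => f k = b)).card : ℕ) : ℝ) := by
    rw [← Nat.cast_sum]
    exact_mod_cast hsum
  rw [hcs]
  calc ∑ b ∈ S.image f, (((S.filter (fun k => f k = b)).card : ℕ) : ℝ)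
      ≤ ∑ _b ∈ S.image f, (1 + 15 * Q / (δ * y) : ℝ) := sum_le_sum hfib
    _ = (S.image f).card * (1 + 15 * Q / (δ * y) : ℝ) := by rw [sum_const, nsmul_eq_mul]
    _ ≤ _ := by
        refine mul_le_mul_of_nonneg_right ?_ hnn
        exact_mod_cast hcardimg

end Pool.Agent.RL
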